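import Pool.Agent.V11281.Psc.Bool

/-!
# Pseudocompact Boolean groups with a pseudocompact topology that is not selectively pseudocompact

Every infinite Boolean group with a pseudocompact Hausdorff group topology has a pseudocompact
Hausdorff group topology which is not selectively pseudocompact (in ZFC).
-/

set_option autoImplicit false

open Set Topology Filter Cardinal

namespace Pool.Agent.Results.MP_8fa6fd_gt.NotSelective

open Pool.Agent.V11281.Psc

universe u

/-- the algebraic part: a Boolean group with at least continuum many elements absorbs `BG` -/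
lemma exists_equiv {G : Type u} [AddCommGroup G] (hB : ∀ x : G, x + x = 0)
    (hG : Cardinal.continuum.{u} ≤ #G) : Nonempty (G ≃+ G × BG) := by
  letI : Module (ZMod 2) G := AddCommGroup.zmodModule (n := 2) (fun x => by
    rw [two_nsmul]; exact hB x)
  have hb := Module.Free.chooseBasis (ZMod 2) G
  set I := Module.Free.ChooseBasisIndex (ZMod 2) G with hI
  have hinf : Infinite I := by
    by_contra hcon
    rw [not_infinite_iff_finite] at hcon
    have : Finite G := Finite.of_equiv _ hb.equivFun.symm.toEquiv
    have h1 : #G < ℵ₀ := Cardinal.lt_aleph0_of_finite G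
    exact absurd (Cardinal.aleph0_le_continuum.trans hG) (not_le.2 h1)
  have hcard : #G = #I := by
    have h1 : #G = #(I →₀ ZMod 2) := Cardinal.mk_congr hb.repr.toEquiv
    rw [h1, Cardinal.mk_finsupp_lift_of_infinite]
    rw [Cardinal.lift_uzero]
    apply max_eq_left
    have h2 : Cardinal.lift.{u} #(ZMod 2) ≤ ℵ₀ := by
      rw [Cardinal.lift_le_aleph0]
      exact Cardinal.mk_le_aleph0
    exact h2.trans (Cardinal.aleph0_le_mk I)
  have hIW : #(I ⊕ W) = #I := by
    rw [Cardinal.mk_sum, Cardinal.lift_uzero, mk_W, Cardinal.lift_continuum]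
    apply Cardinal.add_eq_left (Cardinal.aleph0_le_mk I)
    rw [← hcard]
    exact hG
  obtain ⟨e⟩ := Cardinal.eq.1 hIW
  have e1 : G ≃ₗ[ZMod 2] (I →₀ ZMod 2) := hb.repr
  have e2 : (I →₀ ZMod 2) ≃ₗ[ZMod 2] (I ⊕ W →₀ ZMod 2) := Finsupp.domLCongr e.symm
  have e3 : (I ⊕ W →₀ ZMod 2) ≃ₗ[ZMod 2] (I →₀ ZMod 2) × (W →₀ ZMod 2) :=
    Finsupp.sumFinsuppLEquivProdFinsupp (ZMod 2)
  have e4 : ((I →₀ ZMod 2) × (W →₀ ZMod 2)) ≃ₗ[ZMod 2] G × (W →₀ ZMod 2) :=
    hb.repr.symm.prodCongr (LinearEquiv.refl _ _)
  exact ⟨((e1.trans e2).trans (e3.trans e4)).toAddEquiv⟩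

/-- selective pseudocompactness passes to the second factor -/
lemma SelPseudocompact.snd {X Y : Type*} [TopologicalSpace X] [TopologicalSpace Y] [Nonempty X]
    (h : SelPseudocompact (X × Y)) : SelPseudocompact Y := by
  intro U hU hne
  obtain ⟨x, hx, y, hy⟩ := h (fun n => Prod.snd ⁻¹' U n) (fun n => (hU n).preimage continuous_snd)
    (fun n => by
      obtain ⟨z, hz⟩ := hne n
      exact ⟨(Classical.arbitrary X, z), hz⟩)
  refine ⟨fun n => (x n).2, hx, y.2, fun N hN => ?_⟩
  exact hy _ (continuous_snd.continuousAt.preimage_mem_nhds hN)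

/-- transport of the topology along an isomorphism -/
lemma transport {G H : Type*} [AddCommGroup G] [AddCommGroup H] [TopologicalSpace H]
    [IsTopologicalAddGroup H] [T2Space H] (e : G ≃+ H) (hp : Pseudocompact H)
    (hs : ¬ SelPseudocompact H) :
    ∃ t : TopologicalSpace G, @IsTopologicalAddGroup G t _ ∧ @T2Space G t ∧
      @Pseudocompact G t ∧ ¬ @SelPseudocompact G t := by
  letI t' : TopologicalSpace G := TopologicalSpace.induced e inferInstance
  have hind : IsInducing e := ⟨rfl⟩
  have hsymm : Continuous e.symm := by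
    rw [hind.continuous_iff]
    have h1 : (e : G → H) ∘ e.symm = id := by
      funext x; simp
    rw [h1]
    exact continuous_id
  refine ⟨t', topologicalAddGroup_induced e, (IsEmbedding.mk hind e.injective).t2Space, ?_, ?_⟩
  · intro f hf
    obtain ⟨M, hM⟩ := hp (f ∘ e.symm) (hf.comp hsymm)
    refine ⟨M, fun x => ?_⟩
    have := hM (e x)
    simpa using this
  · intro hsel
    apply hs
    intro U hU hne
    obtain ⟨x, hx, y, hy⟩ := hsel (fun n => e ⁻¹' U n) (fun n => (hU n).preimage hind.continuous)
      (fun n => by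
        obtain ⟨z, hz⟩ := hne n
        exact ⟨e.symm z, by simpa using hz⟩)
    exact ⟨fun n => e (x n), hx, e y, fun N hN =>
      hy _ (hind.continuous.continuousAt.preimage_mem_nhds hN)⟩

/-- **MP_8fa6fd_gt, Q1 (yes).** Every infinite Boolean group which admits a pseudocompact Hausdorff
group topology admits one which is not selectively pseudocompact. -/
theorem result {G : Type u} [AddCommGroup G] [Infinite G] (hB : ∀ x : G, x + x = 0)
    (hG : ∃ t : TopologicalSpace G, @IsTopologicalAddGroup G t _ ∧ @T2Space G t ∧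
      @Pseudocompact G t) :
    ∃ t : TopologicalSpace G, @IsTopologicalAddGroup G t _ ∧ @T2Space G t ∧
      @Pseudocompact G t ∧ ¬ @SelPseudocompact G t := by
  obtain ⟨t, ht, hT2, hps⟩ := hG
  letI : TopologicalSpace G := t
  haveI : IsTopologicalAddGroup G := ht
  haveI : T2Space G := hT2
  haveI hcr : CompletelyRegularSpace G := by
    letI : UniformSpace G := IsTopologicalAddGroup.rightUniformSpace G
    infer_instance
  have hclus := Pseudocompact.cluster hps
  have hiso : ∀ x : G, ¬ IsOpen ({x} : Set G) := by
    intro x hx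
    have h0 : IsOpen ({0} : Set G) := by
      have h1 : ({0} : Set G) = (fun y => y + x) ⁻¹' {x} := by
        ext y; simp
      rw [h1]
      exact hx.preimage (by fun_prop)
    haveI : DiscreteTopology G := discreteTopology_of_isOpen_singleton_zero h0
    exact not_pseudocompact_of_discrete hps
  have hcard := continuum_le hiso hclus
  obtain ⟨e⟩ := exists_equiv hB hcard
  exact transport e (pseudocompact_prod hclus seqFeebly_BG)
    fun h => not_selPseudocompact_BG (SelPseudocompact.snd h)

end Pool.Agent.Results.MP_8fa6fd_gt.NotSelective
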